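import Pool.Agent.Q34.GB
import Mathlib.Tactic.IntervalCases

set_option autoImplicit false

namespace Pool.Agent.Results.MP_8312d7_nt.FailsAtThirtySeven

open Pool.Agent.Q34

/-- `S_1(p) = ∑_{k<p} C(-1/4,k) C(-1/2,k) / 4^k` -/
def S1 (p : ℕ) : ℚ := hs (-1/4) (-1/2) (1/4) p

/-- `S_2(p) = ∑_{k<p} C(-1/2,k) C(-1/6,k) 2^k` -/
def S2 (p : ℕ) : ℚ := hs (-1/2) (-1/6) 2 p

/-- The assertion of Q1 for the prime `p ≡ 1 (mod 4)`: for `p = x^2 + y^2` with `x` odd,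
`S_1 ≡ (p/3) S_2 ≡ (-1)^((p-1)/4 + (x+1)/2) (2x - p/(2x))` if `12 ∣ p - 1`, and for one of the two
signs of `y` one has `S_1 ≡ (p/3) S_2 ≡ 2y - p/(2y)` if `12 ∣ p - 5` (all modulo `p^2`). Here
`(-1)^e` for an integer `e` is written `Int.negOnePow e`. -/
def Posed (p : ℕ) : Prop :=
  ∀ x y : ℤ, (p : ℤ) = x ^ 2 + y ^ 2 → Odd x →
    (p % 12 = 1 →
      Cong p 2 (S1 p) (Int.negOnePow (((p : ℤ) - 1) / 4 + (x + 1) / 2) * (2 * x - p / (2 * x))) ∧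
      Cong p 2 (jacobiSym p 3 * S2 p)
        (Int.negOnePow (((p : ℤ) - 1) / 4 + (x + 1) / 2) * (2 * x - p / (2 * x)))) ∧
    (p % 12 = 5 → ∃ z : ℤ, z ^ 2 = y ^ 2 ∧ Cong p 2 (S1 p) (2 * z - p / (2 * z)) ∧
      Cong p 2 (jacobiSym p 3 * S2 p) (2 * z - p / (2 * z)))

/-- Q1 is false: the case `12 ∣ p - 1` fails for `p = 37 = 1^2 + 6^2`. -/
theorem result : ¬ ∀ p : ℕ, p.Prime → p % 4 = 1 → Posed p := by
  intro h
  have h7 := ((h 37 (by norm_num) (by norm_num) 1 6 (by norm_num) (by decide)).1 (by norm_num)).1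
  refine not_cong (by norm_num) ?_ h7
  unfold S1
  rw [← (st_spec _ _ _ _).2]
  have e : (((37 : ℕ) : ℤ) - 1) / 4 + (1 + 1) / 2 = 10 := by norm_num
  rw [e, show Int.negOnePow 10 = 1 by decide]
  decide +kernel

end Pool.Agent.Results.MP_8312d7_nt.FailsAtThirtySeven
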